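import Mathlib

set_option autoImplicit false
set_option linter.unusedSimpArgs false

/-!
# Normal subgroups of `SL₂(R)`: elementary matrices with entries in an ideal
-/

namespace Pool.Agent.K1H9.SL

open Matrix

variable {R : Type*} [CommRing R]

/-- `SL₂(R)` -/
abbrev SL (R : Type*) [CommRing R] := Matrix.SpecialLinearGroup (Fin 2) R

/-- upper elementary matrices -/
def E12 (x : R) : SL R := ⟨!![1, x; 0, 1], by simp [Matrix.det_fin_two]⟩

/-- lower elementary matrices -/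
def E21 (x : R) : SL R := ⟨!![1, 0; x, 1], by simp [Matrix.det_fin_two]⟩

/-- diagonal matrices -/
def Dg (u : Rˣ) : SL R := ⟨!![(u : R), 0; 0, ((u⁻¹ : Rˣ) : R)], by simp [Matrix.det_fin_two]⟩

/-- Weyl element -/
def Wm : SL R := ⟨!![0, 1; -1, 0], by simp [Matrix.det_fin_two]⟩

theorem SL_ext {g h : SL R} (h00 : g 0 0 = h 0 0) (h01 : g 0 1 = h 0 1) (h10 : g 1 0 = h 1 0)
    (h11 : g 1 1 = h 1 1) : g = h := by
  ext i j
  fin_cases i <;> fin_cases j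
  · exact h00
  · exact h01
  · exact h10
  · exact h11

theorem det_eq (g : SL R) : g 0 0 * g 1 1 - g 0 1 * g 1 0 = 1 := by
  have := g.2
  rw [Matrix.det_fin_two] at this
  exact this

theorem mul00 (g h : SL R) : (g * h) 0 0 = g 0 0 * h 0 0 + g 0 1 * h 1 0 := by
  simp [Matrix.mul_apply, Fin.sum_univ_two]
theorem mul01 (g h : SL R) : (g * h) 0 1 = g 0 0 * h 0 1 + g 0 1 * h 1 1 := by
  simp [Matrix.mul_apply, Fin.sum_univ_two]
theorem mul10 (g h : SL R) : (g * h) 1 0 = g 1 0 * h 0 0 + g 1 1 * h 1 0 := by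
  simp [Matrix.mul_apply, Fin.sum_univ_two]
theorem mul11 (g h : SL R) : (g * h) 1 1 = g 1 0 * h 0 1 + g 1 1 * h 1 1 := by
  simp [Matrix.mul_apply, Fin.sum_univ_two]

theorem inv00 (g : SL R) : g⁻¹ 0 0 = g 1 1 := by rw [Matrix.SpecialLinearGroup.SL2_inv_expl]; rfl
theorem inv01 (g : SL R) : g⁻¹ 0 1 = - g 0 1 := by rw [Matrix.SpecialLinearGroup.SL2_inv_expl]; rfl
theorem inv10 (g : SL R) : g⁻¹ 1 0 = - g 1 0 := by rw [Matrix.SpecialLinearGroup.SL2_inv_expl]; rfl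
theorem inv11 (g : SL R) : g⁻¹ 1 1 = g 0 0 := by rw [Matrix.SpecialLinearGroup.SL2_inv_expl]; rfl

@[simp] theorem E12_00 (x : R) : (E12 x : SL R) 0 0 = 1 := rfl
@[simp] theorem E12_01 (x : R) : (E12 x : SL R) 0 1 = x := rfl
@[simp] theorem E12_10 (x : R) : (E12 x : SL R) 1 0 = 0 := rfl
@[simp] theorem E12_11 (x : R) : (E12 x : SL R) 1 1 = 1 := rfl
@[simp] theorem E21_00 (x : R) : (E21 x : SL R) 0 0 = 1 := rfl
@[simp] theorem E21_01 (x : R) : (E21 x : SL R) 0 1 = 0 := rfl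
@[simp] theorem E21_10 (x : R) : (E21 x : SL R) 1 0 = x := rfl
@[simp] theorem E21_11 (x : R) : (E21 x : SL R) 1 1 = 1 := rfl
@[simp] theorem Dg_00 (u : Rˣ) : (Dg u : SL R) 0 0 = u := rfl
@[simp] theorem Dg_01 (u : Rˣ) : (Dg u : SL R) 0 1 = 0 := rfl
@[simp] theorem Dg_10 (u : Rˣ) : (Dg u : SL R) 1 0 = 0 := rfl
@[simp] theorem Dg_11 (u : Rˣ) : (Dg u : SL R) 1 1 = ((u⁻¹ : Rˣ) : R) := rfl
@[simp] theorem Wm_00 : (Wm : SL R) 0 0 = 0 := rfl
@[simp] theorem Wm_01 : (Wm : SL R) 0 1 = 1 := rfl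
@[simp] theorem Wm_10 : (Wm : SL R) 1 0 = -1 := rfl
@[simp] theorem Wm_11 : (Wm : SL R) 1 1 = 0 := rfl

/-- the commutator of `g` with an elementary matrix -/
theorem comm_entries (g : SL R) (t : R) :
    (g * E12 t * g⁻¹ * E12 (-t)) 0 0 = 1 - g 0 0 * g 1 0 * t ∧
    (g * E12 t * g⁻¹ * E12 (-t)) 0 1 = (g 0 0 ^ 2 - 1) * t + g 0 0 * g 1 0 * t ^ 2 ∧
    (g * E12 t * g⁻¹ * E12 (-t)) 1 0 = - g 1 0 ^ 2 * t ∧
    (g * E12 t * g⁻¹ * E12 (-t)) 1 1 = 1 + g 0 0 * g 1 0 * t + g 1 0 ^ 2 * t ^ 2 := by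
  have hd := det_eq g
  simp only [mul00, mul01, mul10, mul11, inv00, inv01, inv10, inv11, E12_00, E12_01, E12_10, E12_11]
  refine ⟨?_, ?_, ?_, ?_⟩
  · linear_combination hd
  · linear_combination (-t) * hd
  · ring
  · linear_combination hd

theorem conj_entries (z : SL R) (r s : R) :
    (E12 r * (E12 s * z * (E12 s)⁻¹)) 0 0 = z 0 0 + s * z 1 0 + r * z 1 0 ∧
    (E12 r * (E12 s * z * (E12 s)⁻¹)) 0 1 =
      z 0 1 + s * z 1 1 - s * (z 0 0 + s * z 1 0) + r * (z 1 1 - s * z 1 0) ∧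
    (E12 r * (E12 s * z * (E12 s)⁻¹)) 1 0 = z 1 0 ∧
    (E12 r * (E12 s * z * (E12 s)⁻¹)) 1 1 = z 1 1 - s * z 1 0 := by
  simp only [mul00, mul01, mul10, mul11, inv00, inv01, inv10, inv11, E12_00, E12_01, E12_10, E12_11]
  refine ⟨by ring, by ring, by ring, by ring⟩

theorem diag_entries (y : SL R) (u : Rˣ) :
    (Dg u * y * (Dg u)⁻¹) 0 0 = y 0 0 ∧
    (Dg u * y * (Dg u)⁻¹) 0 1 = (u : R) ^ 2 * y 0 1 ∧
    (Dg u * y * (Dg u)⁻¹) 1 0 = ((u⁻¹ : Rˣ) : R) ^ 2 * y 1 0 ∧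
    (Dg u * y * (Dg u)⁻¹) 1 1 = y 1 1 := by
  have huv : (u : R) * ((u⁻¹ : Rˣ) : R) = 1 := by simp
  simp only [mul00, mul01, mul10, mul11, inv00, inv01, inv10, inv11, Dg_00, Dg_01, Dg_10, Dg_11]
  refine ⟨?_, by ring, by ring, ?_⟩
  · linear_combination (y 0 0) * huv
  · linear_combination (y 1 1) * huv

/-- key computation -/
theorem key (N : Subgroup (SL R)) [N.Normal] (g : SL R) (hg : g ∈ N) (w : R) (u : Rˣ)
    (hu : (u : R) = 1 + g 1 0 * w) (t : R) : E12 (t * ((u : R) ^ 4 - 1)) ∈ N := by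
  have hmem : ∀ t : R, g * E12 t * g⁻¹ * E12 (-t) ∈ N := by
    intro t
    have h1 : E12 t * g⁻¹ * (E12 t)⁻¹ ∈ N := Subgroup.Normal.conj_mem inferInstance _ (N.inv_mem hg) _
    have h2 : (E12 t : SL R)⁻¹ = E12 (-t) := by
      apply SL_ext <;> simp [inv00, inv01, inv10, inv11]
    rw [h2] at h1
    have := N.mul_mem hg h1
    simpa [mul_assoc] using this
  obtain ⟨x00, x01, x10, x11⟩ := comm_entries g t
  obtain ⟨y00, y01, y10, y11⟩ := comm_entries g (t * (u : R) ^ 2)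
  have hxN := hmem t
  have hyN := hmem (t * (u : R) ^ 2)
  generalize g * E12 t * g⁻¹ * E12 (-t) = x at *
  generalize g * E12 (t * (u : R) ^ 2) * g⁻¹ * E12 (-(t * (u : R) ^ 2)) = y at *
  obtain ⟨z00, z01, z10, z11⟩ := diag_entries y u
  have hzN : Dg u * y * (Dg u)⁻¹ ∈ N := Subgroup.Normal.conj_mem inferInstance _ hyN _
  generalize Dg u * y * (Dg u)⁻¹ = z at *
  have huv : (u : R) * ((u⁻¹ : Rˣ) : R) = 1 := by simp
  have z10' : z 1 0 = - g 1 0 ^ 2 * t := by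
    rw [z10, y10]
    linear_combination (-g 1 0 ^ 2 * t * ((u : R) * ((u⁻¹ : Rˣ) : R) + 1)) * huv
  obtain ⟨s, hs⟩ : ∃ s : R, s = -g 0 0 * w * (2 + g 1 0 * w) + t * (1 - (u : R) ^ 4) := ⟨_, rfl⟩
  obtain ⟨w00, w01, w10, w11⟩ := conj_entries z (t * ((u : R) ^ 4 - 1)) s
  have hy'N : E12 s * z * (E12 s)⁻¹ ∈ N :=
    Subgroup.Normal.conj_mem inferInstance _ hzN _
  have hE : E12 (t * ((u : R) ^ 4 - 1)) * (E12 s * z * (E12 s)⁻¹) = x := by
    apply SL_ext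
    · rw [w00, x00, z10', z00, y00, hs, hu]
      ring
    · rw [w01, x01, z10', z11, z00, z01, y00, y11, y01, hs, hu]
      ring
    · rw [w10, x10, z10']
    · rw [w11, x11, z10', z11, y11, hs, hu]
      ring
  have : E12 (t * ((u : R) ^ 4 - 1)) = x * (E12 s * z * (E12 s)⁻¹)⁻¹ := by rw [← hE]; group
  rw [this]
  exact N.mul_mem hxN (N.inv_mem hy'N)

/-- `N` contains the lower elementary matrices as well -/
theorem lower (N : Subgroup (SL R)) [N.Normal] (x : R) (h : E12 x ∈ N) : E21 (-x) ∈ N := by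
  have h1 : Wm * E12 x * (Wm : SL R)⁻¹ ∈ N := Subgroup.Normal.conj_mem inferInstance _ h _
  have h2 : Wm * E12 x * (Wm : SL R)⁻¹ = E21 (-x) := by
    apply SL_ext <;> simp [mul00, mul01, mul10, mul11, inv00, inv01, inv10, inv11]
  rwa [h2] at h1

/-- diagonal matrices congruent to one -/
theorem diag_mem (N : Subgroup (SL R)) [N.Normal] (j : R) (hj : ∀ t, E12 (t * j) ∈ N) (u : Rˣ) (k : R)
    (hu : (u : R) = 1 + k * j) : Dg u ∈ N := by
  have hv : ((u⁻¹ : Rˣ) : R) - 1 = (-k * ((u⁻¹ : Rˣ) : R)) * j := by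
    have huv : (u : R) * ((u⁻¹ : Rˣ) : R) = 1 := by simp
    rw [hu] at huv
    linear_combination huv
  have h1 : E21 (-((u⁻¹ : Rˣ) : R)) * E12 (k * j) * (E21 (-((u⁻¹ : Rˣ) : R)))⁻¹ ∈ N :=
    Subgroup.Normal.conj_mem inferInstance _ (hj k) _
  have h2 : E21 (-(((u⁻¹ : Rˣ) : R) - 1)) ∈ N := by
    rw [hv]
    exact lower N _ (hj _)
  have h3 : E12 (((u⁻¹ : Rˣ) : R) - 1) ∈ N := by
    rw [hv]; exact hj _
  have h4 : Dg u = E21 (-((u⁻¹ : Rˣ) : R)) * E12 (k * j) * (E21 (-((u⁻¹ : Rˣ) : R)))⁻¹ *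
      E21 (-(((u⁻¹ : Rˣ) : R) - 1)) * E12 (((u⁻¹ : Rˣ) : R) - 1) := by
    have huv : (u : R) * ((u⁻¹ : Rˣ) : R) = 1 := by simp
    have hk : k * j = (u : R) - 1 := by rw [hu]; ring
    rw [hk]
    apply SL_ext
    · simp only [mul00, mul01, mul10, mul11, inv00, inv01, inv10, inv11, E12_00, E12_01, E12_10,
        E12_11, E21_00, E21_01, E21_10, E21_11, Dg_00, Dg_01, Dg_10, Dg_11]
      linear_combination (0 : R) * huv
    · simp only [mul00, mul01, mul10, mul11, inv00, inv01, inv10, inv11, E12_00, E12_01, E12_10,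
        E12_11, E21_00, E21_01, E21_10, E21_11, Dg_00, Dg_01, Dg_10, Dg_11]
      linear_combination (-1 : R) * huv
    · simp only [mul00, mul01, mul10, mul11, inv00, inv01, inv10, inv11, E12_00, E12_01, E12_10,
        E12_11, E21_00, E21_01, E21_10, E21_11, Dg_00, Dg_01, Dg_10, Dg_11]
      linear_combination (1 : R) * huv
    · simp only [mul00, mul01, mul10, mul11, inv00, inv01, inv10, inv11, E12_00, E12_01, E12_10,
        E12_11, E21_00, E21_01, E21_10, E21_11, Dg_00, Dg_01, Dg_10, Dg_11]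
      linear_combination ((u⁻¹ : Rˣ) : R) * huv
  rw [h4]
  exact N.mul_mem (N.mul_mem h1 h2) h3

/-- the congruence subgroup is contained in `N` -/
theorem congr_mem (N : Subgroup (SL R)) [N.Normal] (j : R) (hj : ∀ t, E12 (t * j) ∈ N)
    (hunit : ∀ k : R, IsUnit (1 + k * j)) (g : SL R) (h00 : ∃ k, g 0 0 = 1 + k * j)
    (h01 : ∃ k, g 0 1 = k * j) (h10 : ∃ k, g 1 0 = k * j) : g ∈ N := by
  obtain ⟨k, hk⟩ := h00
  obtain ⟨l, hl⟩ := h01
  obtain ⟨m, hm⟩ := h10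
  obtain ⟨u, hu⟩ := hunit k
  have huv : (u : R) * ((u⁻¹ : Rˣ) : R) = 1 := by simp
  have h1 : Dg u ∈ N := diag_mem N j hj u k hu
  have h2 : E12 (((u⁻¹ : Rˣ) : R) * l * j) ∈ N := hj _
  have h3 : E21 (-(-(((u⁻¹ : Rˣ) : R) * m) * j)) ∈ N := lower N _ (hj _)
  have h4 : g = E21 (-(-(((u⁻¹ : Rˣ) : R) * m) * j)) * Dg u * E12 (((u⁻¹ : Rˣ) : R) * l * j) := by
    have hd := det_eq g
    rw [hk, hl, hm, ← hu] at hd
    apply SL_ext
    · simp only [mul00, mul01, mul10, mul11, E12_00, E12_01, E12_10,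
        E12_11, E21_00, E21_01, E21_10, E21_11, Dg_00, Dg_01, Dg_10, Dg_11]
      rw [hk, ← hu]
      ring
    · simp only [mul00, mul01, mul10, mul11, E12_00, E12_01, E12_10,
        E12_11, E21_00, E21_01, E21_10, E21_11, Dg_00, Dg_01, Dg_10, Dg_11]
      rw [hl]
      linear_combination (-l * j) * huv
    · simp only [mul00, mul01, mul10, mul11, E12_00, E12_01, E12_10,
        E12_11, E21_00, E21_01, E21_10, E21_11, Dg_00, Dg_01, Dg_10, Dg_11]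
      rw [hm]
      linear_combination (-m * j) * huv
    · simp only [mul00, mul01, mul10, mul11, E12_00, E12_01, E12_10,
        E12_11, E21_00, E21_01, E21_10, E21_11, Dg_00, Dg_01, Dg_10, Dg_11]
      linear_combination (((u⁻¹ : Rˣ) : R)) * hd - (g 1 1) * huv - (((u⁻¹ : Rˣ) : R)) * l * j * m * j * huv
  rw [h4]
  exact N.mul_mem (N.mul_mem h3 h1) h2

end Pool.Agent.K1H9.SL
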