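import Pool.Agent.K1H9.SL.Alg

set_option autoImplicit false
set_option linter.unusedSimpArgs false

/-!
# Normal subgroups of `SL₂(ℤ_p)` are finite or of finite index
-/

namespace Pool.Agent.K1H9.SL

open Matrix

variable {p : ℕ} [Fact p.Prime]

theorem isUnit_one_add_mul_p (x : ℤ_[p]) : IsUnit (1 + x * (p : ℤ_[p])) := by
  have h : x * (p : ℤ_[p]) ∈ IsLocalRing.maximalIdeal ℤ_[p] := by
    apply Ideal.mul_mem_left
    rw [IsLocalRing.mem_maximalIdeal]
    exact PadicInt.p_nonunit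
  by_contra hcon
  have h1 : 1 + x * (p : ℤ_[p]) ∈ IsLocalRing.maximalIdeal ℤ_[p] := by
    rw [IsLocalRing.mem_maximalIdeal]; exact hcon
  have h2 : (1 : ℤ_[p]) ∈ IsLocalRing.maximalIdeal ℤ_[p] := by
    have := Ideal.sub_mem _ h1 h
    simpa using this
  exact (Ideal.ne_top_iff_one _).mp (IsLocalRing.maximalIdeal.isMaximal ℤ_[p]).ne_top h2

theorem two_add_ne_zero (x : ℤ_[p]) : 2 + x * (p : ℤ_[p]) ^ 2 ≠ 0 := by
  intro h
  have hdvd : (p : ℤ_[p]) ^ 2 ∣ ((2 : ℤ) : ℤ_[p]) := ⟨-x, by push_cast; linear_combination h⟩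
  have h1 : ‖((2 : ℤ) : ℤ_[p])‖ ≤ (p : ℝ) ^ (-(2 : ℕ) : ℤ) := by
    rw [PadicInt.norm_le_pow_iff_mem_span_pow, Ideal.mem_span_singleton]
    exact hdvd
  rw [PadicInt.norm_int_le_pow_iff_dvd] at h1
  have h2 := Int.le_of_dvd (by norm_num) h1
  have h3 : 2 ≤ p := (Fact.out : p.Prime).two_le
  have h4 : (2 : ℤ) ≤ p := by exact_mod_cast h3
  nlinarith

theorem finiteIndex_of_ne (N : Subgroup (SL ℤ_[p])) [N.Normal] (g : SL ℤ_[p]) (hg : g ∈ N)
    (hc : g 1 0 ≠ 0) : N.FiniteIndex := by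
  have hp0 : (p : ℤ_[p]) ≠ 0 := by
    exact_mod_cast (Fact.out : p.Prime).ne_zero
  obtain ⟨u, hu⟩ := isUnit_one_add_mul_p (g 1 0 * (p : ℤ_[p]))
  have hu' : (u : ℤ_[p]) = 1 + g 1 0 * (p : ℤ_[p]) ^ 2 := by rw [hu]; ring
  have hne : (u : ℤ_[p]) ^ 4 - 1 ≠ 0 := by
    have h1 : (u : ℤ_[p]) ^ 4 - 1 =
        (g 1 0 * (p : ℤ_[p]) ^ 2) * (2 + g 1 0 * (p : ℤ_[p]) ^ 2) *
          (2 + (2 * g 1 0 + g 1 0 ^ 2 * (p : ℤ_[p]) ^ 2) * (p : ℤ_[p]) ^ 2) := by
      rw [hu']; ring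
    rw [h1]
    exact mul_ne_zero (mul_ne_zero (mul_ne_zero hc (pow_ne_zero _ hp0)) (two_add_ne_zero _))
      (two_add_ne_zero _)
  have hkey := key N g hg ((p : ℤ_[p]) ^ 2) u hu'
  obtain ⟨n, hn⟩ : ∃ n : ℕ, n = ((u : ℤ_[p]) ^ 4 - 1).valuation := ⟨_, rfl⟩
  have hspec := PadicInt.unitCoeff_spec hne
  rw [← hn] at hspec
  generalize PadicInt.unitCoeff hne = v at hspec
  have hj : ∀ t : ℤ_[p], E12 (t * (p : ℤ_[p]) ^ (n + 1)) ∈ N := by
    intro t
    have h1 := hkey (t * (p : ℤ_[p]) * ((v⁻¹ : ℤ_[p]ˣ) : ℤ_[p]))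
    rw [hspec] at h1
    have h2 : t * (p : ℤ_[p]) * ((v⁻¹ : ℤ_[p]ˣ) : ℤ_[p]) * ((v : ℤ_[p]) * (p : ℤ_[p]) ^ n) =
        t * (p : ℤ_[p]) ^ (n + 1) := by
      have hv : (v : ℤ_[p]) * ((v⁻¹ : ℤ_[p]ˣ) : ℤ_[p]) = 1 := by simp
      linear_combination (t * (p : ℤ_[p]) ^ (n + 1)) * hv
    rwa [h2] at h1
  have hle : (Matrix.SpecialLinearGroup.map (n := Fin 2)
      (PadicInt.toZModPow (p := p) (n + 1))).ker ≤ N := by
    intro h hh
    rw [MonoidHom.mem_ker] at hh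
    have hent : ∀ i j, PadicInt.toZModPow (p := p) (n + 1) (h i j) = (1 : SL (ZMod (p ^ (n + 1)))) i j := by
      intro i j
      rw [← hh]
      rfl
    have hmem : ∀ x : ℤ_[p], PadicInt.toZModPow (p := p) (n + 1) x = 0 →
        ∃ k, x = k * (p : ℤ_[p]) ^ (n + 1) := by
      intro x hx
      have : x ∈ RingHom.ker (PadicInt.toZModPow (p := p) (n + 1)) := hx
      rw [PadicInt.ker_toZModPow, Ideal.mem_span_singleton] at this
      obtain ⟨k, hk⟩ := this
      exact ⟨k, by rw [hk]; ring⟩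
    apply congr_mem N ((p : ℤ_[p]) ^ (n + 1)) hj
    · intro k
      have : (1 : ℤ_[p]) + k * (p : ℤ_[p]) ^ (n + 1) = 1 + (k * (p : ℤ_[p]) ^ n) * p := by ring
      rw [this]
      exact isUnit_one_add_mul_p _
    · have h1 : PadicInt.toZModPow (p := p) (n + 1) (h 0 0 - 1) = 0 := by
        rw [map_sub, hent 0 0, map_one]; simp
      obtain ⟨k, hk⟩ := hmem _ h1
      exact ⟨k, by rw [← hk]; ring⟩
    · have h1 : PadicInt.toZModPow (p := p) (n + 1) (h 0 1) = 0 := by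
        rw [hent 0 1]; simp
      exact hmem _ h1
    · have h1 : PadicInt.toZModPow (p := p) (n + 1) (h 1 0) = 0 := by
        rw [hent 1 0]; simp
      exact hmem _ h1
  haveI : NeZero (p ^ (n + 1)) := ⟨pow_ne_zero _ (Fact.out : p.Prime).ne_zero⟩
  haveI : Finite (SL (ZMod (p ^ (n + 1)))) := by
    have : Finite (Matrix (Fin 2) (Fin 2) (ZMod (p ^ (n + 1)))) := inferInstance
    exact Subtype.finite
  haveI := Subgroup.finiteIndex_ker (Matrix.SpecialLinearGroup.map (n := Fin 2)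
      (PadicInt.toZModPow (p := p) (n + 1)))
  exact Subgroup.finiteIndex_of_le hle

/-- every normal subgroup of `SL₂(ℤ_p)` is finite or of finite index -/
theorem finite_or_finiteIndex (N : Subgroup (SL ℤ_[p])) (hN : N.Normal) :
    Finite N ∨ N.FiniteIndex := by
  haveI := hN
  by_cases h : ∃ g ∈ N, g 1 0 ≠ 0
  · obtain ⟨g, hg, hc⟩ := h
    exact Or.inr (finiteIndex_of_ne N g hg hc)
  · left
    push Not at h
    have h01 : ∀ g ∈ N, g 0 1 = 0 := by
      intro g hg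
      have h1 : Wm * g * (Wm : SL ℤ_[p])⁻¹ ∈ N := Subgroup.Normal.conj_mem inferInstance _ hg _
      have h2 := h _ h1
      simp [mul00, mul01, mul10, mul11, inv00, inv01, inv10, inv11] at h2
      exact h2
    have h11 : ∀ g ∈ N, g 0 0 = g 1 1 := by
      intro g hg
      have h1 : E21 1 * g * (E21 1 : SL ℤ_[p])⁻¹ ∈ N := Subgroup.Normal.conj_mem inferInstance _ hg _
      have h2 := h _ h1
      have h3 := h01 g hg
      have h4 := h g hg
      simp only [mul00, mul01, mul10, mul11, inv00, inv01, inv10, inv11, E21_00, E21_01, E21_10,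
        E21_11, h3, h4] at h2
      linear_combination h2
    have hsq : ∀ g ∈ N, g 0 0 = 1 ∨ g 0 0 = -1 := by
      intro g hg
      have hd := det_eq g
      rw [h01 g hg, ← h11 g hg] at hd
      have : (g 0 0 - 1) * (g 0 0 + 1) = 0 := by linear_combination hd
      rcases mul_eq_zero.mp this with h5 | h5
      · left; linear_combination h5
      · right; linear_combination h5
    have hfin : Finite ({1, -1} : Set ℤ_[p]) := Set.Finite.to_subtype (Set.toFinite _)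
    refine Finite.of_injective (β := ({1, -1} : Set ℤ_[p]))
      (fun g => ⟨g.1 0 0, by
        rcases hsq g.1 g.2 with h5 | h5
        · rw [h5]; simp
        · rw [h5]; simp⟩) ?_
    intro g g' hgg
    have h0 : g.1 0 0 = g'.1 0 0 := congrArg Subtype.val hgg
    apply Subtype.ext
    apply SL_ext
    · exact h0
    · rw [h01 _ g.2, h01 _ g'.2]
    · rw [h _ g.2, h _ g'.2]
    · rw [← h11 _ g.2, ← h11 _ g'.2, h0]

end Pool.Agent.K1H9.SL
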